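import Pool.Agent.Helper92.BO.GoalsA

/-!
# The one-variable inequality across the middle
-/

namespace Pool.Agent.Helper65.BO

open MeasureTheory Set intervalIntegral
open Pool.Agent.Helper92.BO

variable {d : ℕ} {l : ℝ} {W : ℝ → ℝ}

lemma W_nonneg (hW : Adm d W) {x : ℝ} (h0 : 0 ≤ x) (h1 : x ≤ 1) : 0 ≤ W x := by
  rcases h1.lt_or_eq with h | h
  · exact (hW.pos x h0 h).le
  · have h2 := hW.rat 0 x le_rfl h0 h1
    have h3 : 0 < W 0 := hW.pos 0 le_rfl one_pos
    rw [sub_zero, one_pow, mul_one] at h2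
    have h4 : 0 ≤ W 0 * (1 - x) ^ d := mul_nonneg h3.le (pow_nonneg (by linarith) _)
    linarith

lemma psiR_pos (hl : 0 < l) (x : ℝ) : 0 < psiR l x := by
  unfold psiR
  split_ifs <;> linarith

lemma psiR_le_one (hl1 : l ≤ 1) (x : ℝ) : psiR l x ≤ 1 := by
  unfold psiR
  split_ifs <;> linarith

lemma le_psiR (hl1 : l ≤ 1) (x : ℝ) : l ≤ psiR l x := by
  unfold psiR
  split_ifs <;> linarith

lemma psiR_anti (hl1 : l ≤ 1) {x x' : ℝ} (h : x' ≤ x) : psiR l x ≤ psiR l x' := by
  unfold psiR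
  split_ifs <;> linarith

lemma rho_nonneg (hl : 0 < l) (hW : Adm d W) {x : ℝ} (h0 : 0 ≤ x) (h1 : x ≤ 1) :
    0 ≤ rho l W x :=
  mul_nonneg (psiR_pos hl x).le (W_nonneg hW h0 h1)

lemma rho_anti (hl : 0 < l) (hl1 : l ≤ 1) (hW : Adm d W) {x x' : ℝ} (h0 : 0 ≤ x') (h : x' ≤ x)
    (h1 : x ≤ 1) : rho l W x ≤ rho l W x' :=
  mul_le_mul (psiR_anti hl1 h) (hW.anti x' x h0 h h1) (W_nonneg hW (h0.trans h) h1)
    (psiR_pos hl x').le

lemma rho_antitoneOn (hl : 0 < l) (hl1 : l ≤ 1) (hW : Adm d W) :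
    AntitoneOn (rho l W) (Icc 0 1) :=
  fun _ hx _ hy hxy => rho_anti hl hl1 hW hx.1 hxy hy.2

lemma rho_int (hl : 0 < l) (hl1 : l ≤ 1) (hW : Adm d W) {a b : ℝ} (ha : 0 ≤ a) (hab : a ≤ b)
    (hb : b ≤ 1) : IntervalIntegrable (rho l W) volume a b := by
  refine AntitoneOn.intervalIntegrable ?_
  rw [uIcc_of_le hab]
  exact (rho_antitoneOn hl hl1 hW).mono (Icc_subset_Icc ha hb)

lemma rho_mul_int (hl : 0 < l) (hl1 : l ≤ 1) (hW : Adm d W) {a b : ℝ} (ha : 0 ≤ a) (hab : a ≤ b)
    (hb : b ≤ 1) {g : ℝ → ℝ} (hg : Continuous g) :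
    IntervalIntegrable (fun x => rho l W x * g x) volume a b :=
  (rho_int hl hl1 hW ha hab hb).mul_continuousOn hg.continuousOn

/-- `Z y / y` is antitone. -/
lemma Zf_ratio (hl : 0 < l) (hl1 : l ≤ 1) (hW : Adm d W) {y' y : ℝ} (h0 : 0 < y') (h : y' ≤ y)
    (h1 : y ≤ 1) : Zf l W y * y' ≤ Zf l W y' * y := by
  have i1 := rho_int hl hl1 hW le_rfl h0.le (h.trans h1)
  have i2 := rho_int hl hl1 hW h0.le h h1
  have e : Zf l W y = Zf l W y' + ∫ x in y'..y, rho l W x := by
    unfold Zf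
    rw [integral_add_adjacent_intervals i1 i2]
  have a1 : y' * rho l W y' ≤ Zf l W y' := by
    have : ∫ _ in (0 : ℝ)..y', rho l W y' ≤ ∫ x in (0 : ℝ)..y', rho l W x := by
      refine integral_mono_on h0.le intervalIntegrable_const i1 fun x hx => ?_
      exact rho_anti hl hl1 hW hx.1 hx.2 (h.trans h1)
    rw [intervalIntegral.integral_const, smul_eq_mul, sub_zero] at this
    exact this
  have a2 : ∫ x in y'..y, rho l W x ≤ (y - y') * rho l W y' := by
    have : ∫ x in y'..y, rho l W x ≤ ∫ _ in y'..y, rho l W y' := by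
      refine integral_mono_on h i2 intervalIntegrable_const fun x hx => ?_
      exact rho_anti hl hl1 hW h0.le hx.1 (hx.2.trans h1)
    rw [intervalIntegral.integral_const, smul_eq_mul] at this
    exact this
  rw [e]
  have b1 : (∫ x in y'..y, rho l W x) * y' ≤ (y - y') * rho l W y' * y' :=
    mul_le_mul_of_nonneg_right a2 h0.le
  have b2 : (y - y') * (y' * rho l W y') ≤ (y - y') * Zf l W y' :=
    mul_le_mul_of_nonneg_left a1 (by linarith)
  nlinarith

lemma Zf_lower (hl : 0 < l) (hl1 : l ≤ 1) (hW : Adm d W) {y : ℝ} (h0 : 0 ≤ y)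
    (h1 : y ≤ 1) : y * rho l W y ≤ Zf l W y := by
  have : ∫ _ in (0 : ℝ)..y, rho l W y ≤ ∫ x in (0 : ℝ)..y, rho l W x := by
    refine integral_mono_on h0 intervalIntegrable_const (rho_int hl hl1 hW le_rfl h0 h1)
      fun x hx => ?_
    exact rho_anti hl hl1 hW hx.1 hx.2 h1
  rw [intervalIntegral.integral_const, smul_eq_mul, sub_zero] at this
  exact this

lemma Zf_upper (hl : 0 < l) (hl1 : l ≤ 1) (hW : Adm d W) {y : ℝ} (h0 : 0 ≤ y)
    (h1 : y ≤ 1) : Zf l W y ≤ y * W 0 := by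
  have : ∫ x in (0 : ℝ)..y, rho l W x ≤ ∫ _ in (0 : ℝ)..y, W 0 := by
    refine integral_mono_on h0 (rho_int hl hl1 hW le_rfl h0 h1) intervalIntegrable_const
      fun x hx => ?_
    have h2 := rho_anti hl hl1 hW le_rfl hx.1 (hx.2.trans h1)
    have h3 : rho l W 0 = W 0 := by
      unfold rho psiR
      norm_num
    rw [h3] at h2
    exact h2
  rw [intervalIntegral.integral_const, smul_eq_mul, sub_zero] at this
  exact this

lemma Zf_pos (hl : 0 < l) (hl1 : l ≤ 1) (hW : Adm d W) {y : ℝ} (h0 : 0 < y)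
    (h1 : y ≤ 1) : 0 < Zf l W y := by
  -- compare with the half interval
  have hy2 : 0 < y / 2 := by linarith
  have i1 := rho_int hl hl1 hW le_rfl hy2.le (by linarith : y / 2 ≤ 1)
  have i2 := rho_int hl hl1 hW hy2.le (by linarith : y / 2 ≤ y) h1
  have e : Zf l W y = Zf l W (y / 2) + ∫ x in (y / 2)..y, rho l W x := by
    unfold Zf
    rw [integral_add_adjacent_intervals i1 i2]
  have h2 := Zf_lower hl hl1 hW hy2.le (by linarith : y / 2 ≤ 1)
  have h3 : 0 < rho l W (y / 2) := mul_pos (psiR_pos hl _) (hW.pos _ hy2.le (by linarith))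
  have h4 : 0 ≤ ∫ x in (y / 2)..y, rho l W x := by
    refine integral_nonneg (by linarith) fun x hx => ?_
    exact rho_nonneg hl hW (hy2.le.trans hx.1) (hx.2.trans h1)
  have h5 : 0 < y / 2 * rho l W (y / 2) := mul_pos hy2 h3
  rw [e]
  linarith

/-- `Mf` is at most `(1 - l) + l (d + 1) (y - y')`. -/
lemma Mf_le (hl : 0 < l) (hl1 : l ≤ 1) (hW : Adm d W) {y' y : ℝ} (h0 : 0 < y') (h : y' < y)
    (h12 : y' < 1 / 2) (h1 : y ≤ 1) :
    Mf l W y' y ≤ (1 - l) + l * (d + 1) * (y - y') := by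
  have hZ' : 0 < Zf l W y' := Zf_pos hl hl1 hW h0 (h.le.trans h1)
  have hZ : 0 < Zf l W y := Zf_pos hl hl1 hW (h0.trans h) h1
  have hy1 : 0 < 1 - y' := by linarith
  set m' : ℝ := y' * rho l W y' / Zf l W y' with hm'
  set m : ℝ := y * rho l W y / Zf l W y with hm
  set θ : ℝ := (1 - y) / (1 - y') with hθ
  have hθ0 : 0 ≤ θ := div_nonneg (by linarith) hy1.le
  have hθ1 : θ ≤ 1 := by
    rw [hθ, div_le_one hy1]
    linarith
  have hρ' : 0 ≤ rho l W y' := rho_nonneg hl hW h0.le (h.le.trans h1)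
  have hm'0 : 0 ≤ m' := div_nonneg (mul_nonneg h0.le hρ') hZ'.le
  have hm'1 : m' ≤ 1 := by
    rw [hm', div_le_one hZ']
    exact Zf_lower hl hl1 hW h0.le (h.le.trans h1)
  -- the density at `y`
  have hρ : l * rho l W y' * θ ^ d ≤ rho l W y := by
    have e1 : rho l W y' = W y' := by
      unfold rho psiR
      rw [if_pos h12.le, one_mul]
    have h2 := hW.rat y' y h0.le h.le h1
    have h3 : W y' * θ ^ d ≤ W y := by
      rw [hθ, div_pow, ← mul_div_assoc, div_le_iff₀ (pow_pos hy1 d)]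
      exact h2
    have h4 : l * W y ≤ rho l W y :=
      mul_le_mul_of_nonneg_right (le_psiR hl1 y) (W_nonneg hW (h0.trans h).le h1)
    rw [e1]
    calc l * W y' * θ ^ d = l * (W y' * θ ^ d) := by ring
      _ ≤ l * W y := mul_le_mul_of_nonneg_left h3 hl.le
      _ ≤ _ := h4
  have hmm : l * θ ^ d * m' ≤ m := by
    have h5 : y' / Zf l W y' ≤ y / Zf l W y := by
      rw [div_le_div_iff₀ hZ' hZ]
      have := Zf_ratio hl hl1 hW h0 h.le h1
      nlinarith
    calc l * θ ^ d * m' = (l * rho l W y' * θ ^ d) * (y' / Zf l W y') := by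
          rw [hm']; ring
      _ ≤ rho l W y * (y / Zf l W y) :=
          mul_le_mul hρ h5 (div_nonneg h0.le hZ'.le)
            (rho_nonneg hl hW (h0.trans h).le h1)
      _ = m := by rw [hm]; ring
  have hMf : Mf l W y' y = (1 - y') * m' - (1 - y) * m := by
    unfold Mf
    rw [hm', hm]
    ring
  have hy : 1 - y = (1 - y') * θ := by
    rw [hθ, mul_div_cancel₀ _ hy1.ne']
  have hpow : 1 - θ ^ (d + 1) ≤ (d + 1) * (1 - θ) := by
    have := one_add_mul_le_pow (a := θ - 1) (by linarith) (d + 1)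
    have e : 1 + (θ - 1) = θ := by ring
    rw [e] at this
    push_cast at this
    linarith
  have hpow0 : θ ^ (d + 1) ≤ 1 := pow_le_one₀ hθ0 hθ1
  have hpn : 0 ≤ θ ^ (d + 1) := pow_nonneg hθ0 _
  have hb : 0 ≤ 1 - l * θ ^ (d + 1) := by nlinarith
  calc Mf l W y' y = (1 - y') * (m' - θ * m) := by rw [hMf, hy]; ring
    _ ≤ (1 - y') * (m' - θ * (l * θ ^ d * m')) := by
        refine mul_le_mul_of_nonneg_left ?_ hy1.le
        have := mul_le_mul_of_nonneg_left hmm hθ0
        linarith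
    _ = (1 - y') * (m' * (1 - l * θ ^ (d + 1))) := by ring
    _ ≤ (1 - y') * (1 * (1 - l * θ ^ (d + 1))) := by
        refine mul_le_mul_of_nonneg_left ?_ hy1.le
        exact mul_le_mul_of_nonneg_right hm'1 hb
    _ = (1 - y') * (1 - l) + l * ((1 - y') * (1 - θ ^ (d + 1))) := by ring
    _ ≤ (1 - l) + l * ((1 - y') * ((d + 1) * (1 - θ))) := by
        refine add_le_add ?_ ?_
        · nlinarith
        · exact mul_le_mul_of_nonneg_left (mul_le_mul_of_nonneg_left hpow hy1.le) hl.le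
    _ = (1 - l) + l * (d + 1) * ((1 - y') - (1 - y') * θ) := by ring
    _ = _ := by rw [← hy]; ring

/-- the mean of `x'` for the antitone density -/
lemma mean_le (hl : 0 < l) (hl1 : l ≤ 1) (hW : Adm d W) {y : ℝ} (h0 : 0 < y) (h1 : y ≤ 1) :
    2 * ∫ x in (0 : ℝ)..y, rho l W x * x ≤ y * Zf l W y := by
  have i1 := rho_mul_int hl hl1 hW le_rfl h0.le h1 (g := fun x => y / 2 - x) (by fun_prop)
  have i2 := rho_mul_int hl hl1 hW le_rfl h0.le h1 (g := fun x => x) (by fun_prop)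
  have i3 := rho_int hl hl1 hW le_rfl h0.le h1
  have key : 0 ≤ ∫ x in (0 : ℝ)..y, rho l W x * (y / 2 - x) := by
    have e0 : ∫ x in (0 : ℝ)..y, rho l W (y / 2) * (y / 2 - x) = 0 := by
      rw [intervalIntegral.integral_const_mul]
      have : ∫ x in (0 : ℝ)..y, (y / 2 - x) = 0 := by
        rw [intervalIntegral.integral_sub intervalIntegrable_const
          (by exact intervalIntegrable_id), intervalIntegral.integral_const, integral_id,
          smul_eq_mul]
        ring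
      rw [this, mul_zero]
    refine e0.ge.trans ?_
    refine integral_mono_on h0.le ?_ i1 fun x hx => ?_
    · exact (by fun_prop : Continuous fun x : ℝ => rho l W (y / 2) * (y / 2 - x)).intervalIntegrable
        _ _
    · rcases le_total x (y / 2) with hxy | hxy
      · exact mul_le_mul_of_nonneg_right
          (rho_anti hl hl1 hW hx.1 hxy (by linarith)) (by linarith)
      · exact mul_le_mul_of_nonpos_right
          (rho_anti hl hl1 hW (by linarith) hxy (hx.2.trans h1)) (by linarith)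
  have e1 : ∫ x in (0 : ℝ)..y, rho l W x * (y / 2 - x) =
      y / 2 * Zf l W y - ∫ x in (0 : ℝ)..y, rho l W x * x := by
    have : ∀ x, rho l W x * (y / 2 - x) = y / 2 * rho l W x - rho l W x * x := fun x => by ring
    simp_rw [this]
    rw [intervalIntegral.integral_sub (i3.const_mul _) i2,
      intervalIntegral.integral_const_mul]
    rfl
  rw [e1] at key
  linarith

/-- the double integral -/
lemma double_eq (hl : 0 < l) (hl1 : l ≤ 1) (hW : Adm d W) {y' y : ℝ} (h0 : 0 < y')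
    (h1' : y' ≤ 1) :
    ∫ x in y'..y, ∫ x' in (0 : ℝ)..y', rho l W x * rho l W x' * (2 * (x - x')) =
      ∫ x in y'..y, rho l W x * (2 * x * Zf l W y' -
        2 * ∫ x' in (0 : ℝ)..y', rho l W x' * x') := by
  refine integral_congr fun x _ => ?_
  have i2 := rho_mul_int hl hl1 hW le_rfl h0.le h1' (g := fun x => x) (by fun_prop)
  have i3 := rho_int hl hl1 hW le_rfl h0.le h1'
  have : ∀ x', rho l W x * rho l W x' * (2 * (x - x')) =
      rho l W x * (2 * x * rho l W x' - 2 * (rho l W x' * x')) := fun x' => by ring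
  simp_rw [this]
  rw [intervalIntegral.integral_const_mul,
    intervalIntegral.integral_sub (i3.const_mul _) (i2.const_mul _),
    intervalIntegral.integral_const_mul, intervalIntegral.integral_const_mul]
  rfl

/-- lower bound for the source term -/
lemma Sf_lower (hl : 0 < l) (hl1 : l ≤ 1) (hW : Adm d W) {y' y : ℝ} (h0 : 0 < y')
    (h12' : y' < 1 / 2) (h12 : 1 / 2 < y) (h1 : y ≤ 1) :
    Zf l W y' * (l * (1 / 4) ^ d * W 0 * (y - y') / 8) + (1 - l) / 4 * W (1 / 2) * Zf l W y' ≤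
      Sf l W y' y := by
  have hy'1 : y' ≤ 1 := by linarith
  have hZ' : 0 < Zf l W y' := Zf_pos hl hl1 hW h0 hy'1
  unfold Sf
  rw [if_pos h12, if_neg (by linarith), sub_zero]
  refine add_le_add ?_ le_rfl
  rw [double_eq hl hl1 hW h0 hy'1]
  have hmean := mean_le hl hl1 hW h0 hy'1
  set K : ℝ := ∫ x' in (0 : ℝ)..y', rho l W x' * x' with hK
  set y'' : ℝ := min y (3 / 4) with hy''
  have hy''1 : y'' ≤ y := min_le_left _ _
  have hy''2 : y'' ≤ 3 / 4 := min_le_right _ _
  have hy''3 : 1 / 2 ≤ y'' := le_min h12.le (by norm_num)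
  have hy''4 : (y - y') / 4 ≤ y'' - y' := by
    rcases le_total y (3 / 4) with h | h
    · rw [hy'', min_eq_left h]; linarith
    · rw [hy'', min_eq_right h]; linarith
  have hcont : Continuous fun x : ℝ => 2 * x * Zf l W y' - 2 * K := by fun_prop
  have j1 := rho_mul_int hl hl1 hW h0.le (by linarith : y' ≤ y'') (hy''1.trans h1) hcont
  have j2 := rho_mul_int hl hl1 hW (by linarith : 0 ≤ y'') hy''1 h1 hcont
  rw [← integral_add_adjacent_intervals j1 j2]
  have hpos : ∀ x, y' ≤ x → 0 ≤ 2 * x * Zf l W y' - 2 * K := by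
    intro x hx
    have : y' * Zf l W y' ≤ x * Zf l W y' := mul_le_mul_of_nonneg_right hx hZ'.le
    have h3 : 0 ≤ x * Zf l W y' := mul_nonneg (h0.le.trans hx) hZ'.le
    linarith
  have k2 : 0 ≤ ∫ x in y''..y, rho l W x * (2 * x * Zf l W y' - 2 * K) := by
    refine integral_nonneg hy''1 fun x hx => ?_
    exact mul_nonneg (rho_nonneg hl hW (by linarith [hx.1]) (hx.2.trans h1))
      (hpos x (by linarith [hx.1]))
  have k1 : rho l W y'' * ((y'' - y') * y'' * Zf l W y') ≤
      ∫ x in y'..y'', rho l W x * (2 * x * Zf l W y' - 2 * K) := by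
    have e : ∫ x in y'..y'', rho l W y'' * (2 * x * Zf l W y' - y' * Zf l W y') =
        rho l W y'' * ((y'' - y') * y'' * Zf l W y') := by
      rw [intervalIntegral.integral_const_mul]
      congr 1
      have : ∀ x : ℝ, 2 * x * Zf l W y' - y' * Zf l W y' = Zf l W y' * (2 * x - y') :=
        fun x => by ring
      simp_rw [this]
      rw [intervalIntegral.integral_const_mul, intervalIntegral.integral_sub
        ((by fun_prop : Continuous fun x : ℝ => 2 * x).intervalIntegrable _ _)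
        intervalIntegrable_const, intervalIntegral.integral_const_mul, integral_id,
        intervalIntegral.integral_const, smul_eq_mul]
      ring
    rw [← e]
    refine integral_mono_on (by linarith) ?_ j1 fun x hx => ?_
    · exact (by fun_prop : Continuous fun x : ℝ =>
        rho l W y'' * (2 * x * Zf l W y' - y' * Zf l W y')).intervalIntegrable _ _
    · have a1 : rho l W y'' ≤ rho l W x :=
        rho_anti hl hl1 hW (h0.le.trans hx.1) hx.2 (hy''1.trans h1)
      have a2 : 2 * x * Zf l W y' - y' * Zf l W y' ≤ 2 * x * Zf l W y' - 2 * K := by linarith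
      have a3 : 0 ≤ 2 * x * Zf l W y' - y' * Zf l W y' := by
        have : y' * Zf l W y' ≤ x * Zf l W y' := mul_le_mul_of_nonneg_right hx.1 hZ'.le
        have h3 : 0 ≤ x * Zf l W y' := mul_nonneg (h0.le.trans hx.1) hZ'.le
        linarith
      exact mul_le_mul a1 a2 a3 (rho_nonneg hl hW (h0.le.trans hx.1)
        (hx.2.trans (hy''1.trans h1)))
  have hρ'' : l * (W 0 * (1 / 4) ^ d) ≤ rho l W y'' := by
    have h2 := hW.rat 0 y'' le_rfl (by linarith) (hy''1.trans h1)
    rw [sub_zero, one_pow, mul_one] at h2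
    have h3 : (1 / 4 : ℝ) ^ d ≤ (1 - y'') ^ d := pow_le_pow_left₀ (by norm_num) (by linarith) d
    have h4 : 0 < W 0 := hW.pos 0 le_rfl one_pos
    have h5 : W 0 * (1 / 4) ^ d ≤ W y'' := (mul_le_mul_of_nonneg_left h3 h4.le).trans h2
    exact mul_le_mul (le_psiR hl1 y'') h5 (mul_nonneg h4.le (by positivity))
      (psiR_pos hl y'').le
  have hW0 : 0 < W 0 := hW.pos 0 le_rfl one_pos
  have h6 : (y - y') / 4 * (1 / 2) * Zf l W y' ≤ (y'' - y') * y'' * Zf l W y' := by
    refine mul_le_mul_of_nonneg_right ?_ hZ'.le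
    exact mul_le_mul hy''4 hy''3 (by norm_num) (by linarith)
  have h7 : l * (W 0 * (1 / 4) ^ d) * ((y - y') / 4 * (1 / 2) * Zf l W y') ≤
      rho l W y'' * ((y'' - y') * y'' * Zf l W y') := by
    refine mul_le_mul hρ'' h6 ?_ (rho_nonneg hl hW (by linarith) (hy''1.trans h1))
    exact mul_nonneg (by linarith) hZ'.le
  have h8 : Zf l W y' * (l * (1 / 4) ^ d * W 0 * (y - y') / 8) =
      l * (W 0 * (1 / 4) ^ d) * ((y - y') / 4 * (1 / 2) * Zf l W y') := by ring
  rw [h8]
  linarith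

theorem srb : SrbStmt := by
  intro d l W hl hl1 hW y' y h0 h12' h12 h1
  have hy : y' < y := by linarith
  have hZ' : 0 < Zf l W y' := Zf_pos hl hl1 hW h0 (by linarith)
  have hZ : 0 < Zf l W y := Zf_pos hl hl1 hW (by linarith) h1
  have hW0 : 0 < W 0 := hW.pos 0 le_rfl one_pos
  have hM := Mf_le hl hl1 hW h0 hy h12' h1
  refine le_trans ?_ (Sf_lower hl hl1 hW h0 h12' h12 h1)
  have hZW : Zf l W y ≤ W 0 := by
    have := Zf_upper hl hl1 hW (by linarith : 0 ≤ y) h1
    nlinarith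
  have hWh : (1 / 2 : ℝ) ^ d * W 0 ≤ W (1 / 2) := by
    have h2 := hW.rat 0 (1 / 2) le_rfl (by norm_num) (by norm_num)
    rw [sub_zero, one_pow, mul_one] at h2
    have e : (1 - 1 / 2 : ℝ) = 1 / 2 := by norm_num
    rw [e] at h2
    linarith
  have hd : (0 : ℝ) < (d : ℝ) + 1 := by positivity
  have hq : 0 < (1 / 4 : ℝ) ^ d := by positivity
  have hc : 0 ≤ l * (1 / 4 : ℝ) ^ d / (8 * (d + 1)) := by positivity
  have hZZ : 0 ≤ Zf l W y' * Zf l W y := (mul_pos hZ' hZ).le
  have s1 : l * (1 / 4) ^ d / (8 * (d + 1)) * Mf l W y' y * (Zf l W y' * Zf l W y) ≤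
      l * (1 / 4) ^ d / (8 * (d + 1)) * ((1 - l) + l * (d + 1) * (y - y')) *
        (Zf l W y' * Zf l W y) :=
    mul_le_mul_of_nonneg_right (mul_le_mul_of_nonneg_left hM hc) hZZ
  refine s1.trans ?_
  have e1 : l * (1 / 4) ^ d / (8 * (d + 1)) * ((1 - l) + l * (d + 1) * (y - y')) *
        (Zf l W y' * Zf l W y) =
      Zf l W y' * (l * (1 / 4) ^ d * (l * Zf l W y) * (y - y') / 8) +
        (1 - l) / 4 * (l / (2 * (d + 1)) * ((1 / 4) ^ d * Zf l W y)) * Zf l W y' := by
    field_simp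
    ring
  rw [e1]
  refine add_le_add ?_ ?_
  · have : l * Zf l W y ≤ W 0 := by nlinarith
    refine mul_le_mul_of_nonneg_left ?_ hZ'.le
    have h3 : l * (1 / 4 : ℝ) ^ d * (l * Zf l W y) ≤ l * (1 / 4 : ℝ) ^ d * W 0 :=
      mul_le_mul_of_nonneg_left this (by positivity)
    have h4 := mul_le_mul_of_nonneg_right h3 (by linarith : 0 ≤ y - y')
    linarith
  · refine mul_le_mul_of_nonneg_right ?_ hZ'.le
    refine mul_le_mul_of_nonneg_left ?_ (by linarith)
    have h3 : l / (2 * ((d : ℝ) + 1)) ≤ 1 := by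
      rw [div_le_one (by positivity)]
      nlinarith
    have h4 : (1 / 4 : ℝ) ^ d ≤ (1 / 2) ^ d := pow_le_pow_left₀ (by norm_num) (by norm_num) d
    have h5 : (1 / 4 : ℝ) ^ d * Zf l W y ≤ (1 / 2) ^ d * W 0 :=
      mul_le_mul h4 hZW hZ.le (by positivity)
    have h6 : 0 ≤ (1 / 4 : ℝ) ^ d * Zf l W y := mul_nonneg hq.le hZ.le
    calc l / (2 * ((d : ℝ) + 1)) * ((1 / 4) ^ d * Zf l W y) ≤ 1 * ((1 / 4) ^ d * Zf l W y) :=
          mul_le_mul_of_nonneg_right h3 h6
      _ ≤ W (1 / 2) := by linarith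

end Pool.Agent.Helper65.BO
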