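import Pool.Agent.Helper92.BO.GoalsG

/-!
# The potential of a move is at most the number of moved bounds
-/

namespace Pool.Agent.Helper65.BO

open MeasureTheory Filter Topology Function
open Pool.Agent.Helper92.BO

lemma sum_le_length (p : ℕ → Prop) [DecidablePred p] (f : ℕ → ℝ) : ∀ M : List ℕ,
    (∀ u ∈ M, p u → f u ≤ 1) → (∀ u ∈ M, ¬ p u → f u ≤ 0) →
    (M.map f).sum ≤ ((M.filter fun u => decide (p u)).length : ℝ)
  | [], _, _ => by simp
  | a :: M, h1, h2 => by
    have ih := sum_le_length p f M (fun u hu => h1 u (List.mem_cons_of_mem _ hu))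
      (fun u hu => h2 u (List.mem_cons_of_mem _ hu))
    rw [List.map_cons, List.sum_cons]
    by_cases ha : p a
    · rw [List.filter_cons_of_pos (by simpa using ha), List.length_cons]
      have := h1 a List.mem_cons_self ha
      push_cast
      linarith
    · rw [List.filter_cons_of_neg (by simpa using ha)]
      have := h2 a List.mem_cons_self ha
      linarith

theorem tmb (h : PhbStmt) : TmbStmt := by
  intro G l L b b' hl hl1 hnd hb hb'
  have part1 : ∀ c c' : ℕ → ℝ, Pos1 L c → Pos1 L c' →
      Tm G l L c c' ≤ ((L.filter fun u => decide (c' u < c u)).length : ℝ) := by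
    intro c c' hc hc'
    unfold Tm
    refine sum_le_length (fun u => c' u < c u) _ L ?_ ?_
    · intro u hu hp
      simp only [hp, if_true]
      obtain ⟨-, h2, -, -⟩ := h G l L u c' hl hl1 hnd hu hc'
      obtain ⟨h3, -, -, -⟩ := h G l L u c hl hl1 hnd hu hc
      have := (hc' u hu).1
      linarith
    · intro u hu hp
      simp only [hp, if_false]
      exact neg_nonpos.2 (abs_nonneg _)
  refine ⟨part1 b b' hb hb', ?_⟩
  intro Δ v x' x hΔ hx' hxx hx
  have hcut : ∀ y : ℝ, 0 ≤ y → y < 1 → Pos1 L (cut G v (1 - y) b) := by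
    intro y hy0 hy1 u hu
    unfold cut
    split_ifs with hadj
    · exact ⟨lt_min (hb u hu).1 (by linarith), (min_le_left _ _).trans (hb u hu).2⟩
    · exact hb u hu
  refine (part1 _ _ (hcut x' hx' (by linarith)) (hcut x (by linarith) hx)).trans ?_
  have hsub : ((L.filter fun u => decide (cut G v (1 - x) b u < cut G v (1 - x') b u)).toFinset :
      Set ℕ) ⊆ G.neighborSet v := by
    intro u hu
    rw [Finset.mem_coe, List.mem_toFinset, List.mem_filter] at hu
    have hlt : cut G v (1 - x) b u < cut G v (1 - x') b u := by simpa using hu.2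
    by_contra hn
    have hadj : ¬ G.Adj v u := hn
    unfold cut at hlt
    rw [if_neg hadj, if_neg hadj] at hlt
    exact lt_irrefl _ hlt
  have hcard := (Set.encard_le_encard hsub).trans (hΔ v)
  rw [Set.encard_coe_eq_coe_finsetCard, List.toFinset_card_of_nodup (hnd.filter _)] at hcard
  exact_mod_cast hcard

end Pool.Agent.Helper65.BO
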